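import Pool.Agent.T2H32.EK.Fin
import Pool.Agent.T2H32.EK.MUL
import Pool.Agent.T2H32.EK.LOC
import Pool.Agent.T2H32.EK.LOGL
import Pool.Agent.T2H32.EK.DER
import Pool.Agent.T2H32.EK.ZET
import Pool.Agent.T2H32.EK.LIM
import Pool.Agent.T2H32.EK.REM
import Pool.Agent.T2H32.EK.SWN
import Pool.Agent.T2H32.EK.SYA
import Pool.Agent.T2H32.EK.SYB
import Pool.Agent.T2H32.EK.TAIL
import Pool.Agent.T2H32.EK.CNT
import Pool.Agent.T2H32.EK.MED
import Pool.Agent.T2H32.EK.BIGA
import Pool.Agent.T2H32.EK.TUP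
import Pool.Agent.T2H32.EK.LSM
import Pool.Agent.T2H32.EK.BIGB
import Pool.Agent.T2H32.EK.EX
import Pool.Agent.T2H32.EK.GRE

set_option autoImplicit false

/-!
# The Euler-Kronecker constants of divisor sums modulo `q` are dense in the reals

`S = {n ≥ 1 : q ∤ σ_k(n)}`, `L(s) = ∑_{n ∈ S} n^(-s)`, `h = (q - 1) / gcd(k, q - 1)`, `(k, q)` admissible if `q` is an odd prime, `k ≥ 1` and `h` is even;
`γ_{k,q} = lim_{s → 1+} (L'(s)/L(s) + (h - 1)/(h (s - 1)))`.

**Theorem.** For every real `c` and every `ε > 0` there are arbitrarily large primes `q` such that for `k = (q - 1)/2` (so `h = 2`) the constant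
`γ_{k,q}` exists and `|γ_{k,q} - c| < ε`. With `c = 1/2` this answers Q1: yes.

Proof. For `k = (q - 1)/2` we have `p^k = (p / q)` modulo `q`, and `L(s)` is, up to factors which converge absolutely for `s > 1/2`, the square root of
`ζ(s) L(s, (· / q))`. So `γ_{k,q} = γ/2 - P/2 - S` with `P = ∑_p (p / q) log p / p`, and `S` converges absolutely, uniformly in `q`. The symbols
`(p / q)` of the primes `p ≤ z` can be prescribed, and this gives any real number, since `∑ log p / p` diverges. For most of these primes `q ≤ Q` the rest of `P`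
is small: for `z < p ≤ (log Q)^8` by a second moment over the primes `q` and the theorem of Siegel and Walfisz, for
`(log Q)^8 < p ≤ Q^{1/4}` by a second moment over all integers `q ≤ Q` and the inequality of Pólya and Vinogradov, for
`Q^{1/4} < p ≤ exp (Q^{1/40})` by the 16th moment and the large sieve in dyadic intervals, and for larger `p` by the theorem of Siegel and Walfisz.
-/

namespace Pool.Agent.Results.MP_4e26da_nt.DenseValues

open Filter Topology Pool.Agent.T2H32.EK

/-- **The constants `γ_{k,q}` are dense in the reals; in particular `1/2` lies in the closure of the set of their values.** -/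
theorem result :
    (∀ ε : ℝ, 0 < ε → ∃ k q : ℕ, Admissible k q ∧ ∃ γ : ℝ, IsEK k q γ ∧ |γ - 1 / 2| < ε) ∧
    (∀ c ε : ℝ, 0 < ε → ∀ N : ℕ, ∃ q : ℕ, N ≤ q ∧ Admissible ((q - 1) / 2) q ∧ hh ((q - 1) / 2) q = 2 ∧
      ∃ γ : ℝ, IsEK ((q - 1) / 2) q γ ∧ |γ - c| < ε) := by
  have hLIM := LIM_main (LOGL_main MUL_main (LOC_main MUL_main)) DER_main ZET_main
  have hTAIL := TAIL_main (SYA_main SWN_main)
  have hSYB := SYB_main SWN_main
  have hCNT := CNT_main hSYB
  have hEX := EX_main hCNT (MED_main hSYB hCNT) BIGA_main (BIGB_main (LSM_main TUP_main))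
  have hfin := fin hLIM REM_main hTAIL hEX GRE_main
  refine ⟨fun ε hε => ?_, hfin⟩
  obtain ⟨q, -, h1, -, γ, h2, h3⟩ := hfin (1 / 2) ε hε 0
  exact ⟨(q - 1) / 2, q, h1, γ, h2, h3⟩

end Pool.Agent.Results.MP_4e26da_nt.DenseValues
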